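import Mathlib

namespace Pool.Agent.Lib.MP_f35a22_co

open Matrix Complex

/-- The 2x2 Hermitian matrix `1 + x sigma_x + y sigma_y + z sigma_z`, entrywise. -/
noncomputable def P (x y z : ℝ) : Matrix (Fin 2) (Fin 2) ℂ :=
  !![1 + (z : ℂ), (x : ℂ) - I * y; (x : ℂ) + I * y, 1 - (z : ℂ)]

/-- Spinors. -/
lemma exists_spinor (x y z : ℝ) (h : x ^ 2 + y ^ 2 + z ^ 2 = 1) :
    ∃ ψ : Fin 2 → ℂ, ∀ a b, ψ a * (starRingEnd ℂ) (ψ b) = P x y z a b := by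
  by_cases hz : 1 + z = 0
  · have hz' : z = -1 := by linarith
    subst hz'
    have hxy : x ^ 2 + y ^ 2 = 0 := by nlinarith
    have hx : x = 0 := by nlinarith [sq_nonneg x, sq_nonneg y]
    have hy : y = 0 := by nlinarith [sq_nonneg x, sq_nonneg y]
    subst hx hy
    refine ⟨![0, (Real.sqrt 2 : ℝ)], ?_⟩
    have h2 : ((Real.sqrt 2 : ℝ) : ℂ) * ((Real.sqrt 2 : ℝ) : ℂ) = 2 := by
      rw [← Complex.ofReal_mul, Real.mul_self_sqrt (by norm_num)]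
      norm_num
    intro a b
    fin_cases a <;> fin_cases b <;> simp [P, h2]
    norm_num
  · have hpos : 0 < 1 + z := by
      have : -1 ≤ z := by nlinarith [sq_nonneg x, sq_nonneg y, sq_nonneg z]
      rcases lt_or_eq_of_le this with h1 | h1
      · linarith
      · exfalso; apply hz; linarith
    set s : ℝ := Real.sqrt (1 + z) with hs
    have hspos : 0 < s := Real.sqrt_pos.mpr hpos
    have hss : s * s = 1 + z := Real.mul_self_sqrt hpos.le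
    have hsC : (s : ℂ) ≠ 0 := by exact_mod_cast hspos.ne'
    have hssC : (s : ℂ) * (s : ℂ) = 1 + (z : ℂ) := by exact_mod_cast hss
    have hC : (x : ℂ) ^ 2 + (y : ℂ) ^ 2 + (z : ℂ) ^ 2 = 1 := by exact_mod_cast h
    refine ⟨![(s : ℂ), ((x : ℂ) + I * y) / s], ?_⟩
    intro a b
    fin_cases a <;> fin_cases b
    · simp [P, hssC]
    · simp [P]
      field_simp
      ring
    · simp [P]
      field_simp
    · simp [P]
      field_simp
      have hI : I ^ 2 = -1 := Complex.I_sq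
      have : (s : ℂ) ^ 2 = 1 + (z : ℂ) := by rw [sq]; exact hssC
      rw [this]
      linear_combination hC - (y : ℂ) ^ 2 * hI

/-- Determinant of `1 + c.sigma (x) 1 + s sum_k sigma_k (x) sigma_k`. -/
noncomputable def M (a b c s : ℝ) : Matrix (Fin 4) (Fin 4) ℂ :=
  !![1 + (c : ℂ) + s, 0, (a : ℂ) - I * b, 0;
     0, 1 + (c : ℂ) - s, 2 * (s : ℂ), (a : ℂ) - I * b;
     (a : ℂ) + I * b, 2 * (s : ℂ), 1 - (c : ℂ) - s, 0;
     0, (a : ℂ) + I * b, 0, 1 - (c : ℂ) + s]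

/-- The value of the determinant. -/
def D (n s : ℝ) : ℝ := ((1 + s) ^ 2 - n) * ((1 - 3 * s) * (1 + s) - n)

lemma det_M (a b c s : ℝ) : (M a b c s).det = (D (a ^ 2 + b ^ 2 + c ^ 2) s : ℝ) := by
  have hI : I ^ 2 = -1 := Complex.I_sq
  rw [M, D]
  rw [Matrix.det_succ_row_zero]
  simp [Fin.sum_univ_succ, Matrix.det_fin_three, Fin.succAbove, Matrix.submatrix]
  ring_nf
  have hI4 : I ^ 4 = 1 := by rw [show (4 : ℕ) = 2 * 2 from rfl, pow_mul, hI]; norm_num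
  simp only [hI, hI4]
  ring

/-- First index of a pair coded in `Fin 4`. -/
def f1 : Fin 4 → Fin 2 := ![0, 0, 1, 1]
/-- Second index of a pair coded in `Fin 4`. -/
def f2 : Fin 4 → Fin 2 := ![0, 1, 0, 1]

/-- The determinant of a weighted sum of rank one product matrices. -/
lemma det_factor (u w : Fin 4 → Fin 3 → ℝ) (l : Fin 4 → ℝ)
    (hu : ∀ i, u i 0 ^ 2 + u i 1 ^ 2 + u i 2 ^ 2 = 1)
    (hw : ∀ i, w i 0 ^ 2 + w i 1 ^ 2 + w i 2 ^ 2 = 1)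
    (N : Matrix (Fin 4) (Fin 4) ℂ)
    (hN : ∀ r s, N r s = ∑ i, (l i : ℂ) * P (u i 0) (u i 1) (u i 2) (f1 r) (f1 s)
      * P (w i 0) (w i 1) (w i 2) (f2 r) (f2 s)) :
    ∃ t : ℝ, 0 ≤ t ∧ N.det = (((∏ i, l i) * t : ℝ) : ℂ) := by
  choose α hα using fun i => exists_spinor (u i 0) (u i 1) (u i 2) (hu i)
  choose β hβ using fun i => exists_spinor (w i 0) (w i 1) (w i 2) (hw i)
  let Φ : Matrix (Fin 4) (Fin 4) ℂ := fun r i => α i (f1 r) * β i (f2 r)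
  have hfac : N = Φ * Matrix.diagonal (fun i => (l i : ℂ)) * Φᴴ := by
    ext r s
    rw [hN, Matrix.mul_apply]
    refine Finset.sum_congr rfl fun i _ => ?_
    rw [Matrix.mul_diagonal, Matrix.conjTranspose_apply, ← hα, ← hβ]
    simp only [Φ, star_mul', RCLike.star_def]
    ring
  refine ⟨Complex.normSq Φ.det, Complex.normSq_nonneg _, ?_⟩
  rw [hfac, Matrix.det_mul, Matrix.det_mul, Matrix.det_diagonal, Matrix.det_conjTranspose,
    RCLike.star_def]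
  rw [mul_right_comm, Complex.mul_conj]
  push_cast
  ring

lemma M_eq (u w : Fin 4 → Fin 3 → ℝ) (l : Fin 4 → ℝ) (a b c s : ℝ)
    (hl : ∑ i, l i = 1)
    (hlw : ∀ k, ∑ i, l i * w i k = 0)
    (hlu0 : ∑ i, l i * u i 0 = a) (hlu1 : ∑ i, l i * u i 1 = b) (hlu2 : ∑ i, l i * u i 2 = c)
    (hluw : ∀ k m, ∑ i, l i * (u i k * w i m) = if k = m then s else 0) (r t : Fin 4) :
    M a b c s r t = ∑ i, (l i : ℂ) * P (u i 0) (u i 1) (u i 2) (f1 r) (f1 t)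
      * P (w i 0) (w i 1) (w i 2) (f2 r) (f2 t) := by
  have hlC : ∑ i, (l i : ℂ) = 1 := by exact_mod_cast hl
  have hlwC : ∀ k, ∑ i, (l i : ℂ) * (w i k : ℂ) = 0 := fun k => by exact_mod_cast hlw k
  have hlu0C : ∑ i, (l i : ℂ) * (u i 0 : ℂ) = a := by exact_mod_cast hlu0
  have hlu1C : ∑ i, (l i : ℂ) * (u i 1 : ℂ) = b := by exact_mod_cast hlu1
  have hlu2C : ∑ i, (l i : ℂ) * (u i 2 : ℂ) = c := by exact_mod_cast hlu2
  have hluwC : ∀ k m, ∑ i, (l i : ℂ) * ((u i k : ℂ) * (w i m : ℂ))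
      = if k = m then (s : ℂ) else 0 := fun k m => by
    have := hluw k m
    have h2 : ((∑ i, l i * (u i k * w i m) : ℝ) : ℂ) = ((if k = m then s else 0 : ℝ) : ℂ) := by
      rw [this]
    push_cast at h2
    rw [h2]
    split_ifs <;> simp
  have e0 := hlwC 0
  have e1 := hlwC 1
  have e2 := hlwC 2
  have g00 := hluwC 0 0
  have g01 := hluwC 0 1
  have g02 := hluwC 0 2
  have g10 := hluwC 1 0
  have g11 := hluwC 1 1
  have g12 := hluwC 1 2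
  have g20 := hluwC 2 0
  have g21 := hluwC 2 1
  have g22 := hluwC 2 2
  simp [Fin.sum_univ_four] at hlC e0 e1 e2 hlu0C hlu1C hlu2C g00 g01 g02 g10 g11 g12 g20 g21 g22
  have hI : I ^ 2 = -1 := Complex.I_sq
  fin_cases r <;> fin_cases t
  · simp [M, P, f1, f2, Fin.sum_univ_four]
    linear_combination (0 : ℂ) * hI - ((1)*(1))*hlC - ((1)*(1))*hlu2C - ((1)*(1))*e2 - ((1)*(1))*g22
  · simp [M, P, f1, f2, Fin.sum_univ_four]
    linear_combination (0 : ℂ) * hI - ((1)*(1))*e0 - ((1)*(-I))*e1 - ((1)*(1))*g20 - ((1)*(-I))*g21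
  · simp [M, P, f1, f2, Fin.sum_univ_four]
    linear_combination (0 : ℂ) * hI - ((1)*(1))*hlu0C - ((-I)*(1))*hlu1C - ((1)*(1))*g02 - ((-I)*(1))*g12
  · simp [M, P, f1, f2, Fin.sum_univ_four]
    linear_combination (0 : ℂ) * hI - ((1)*(1))*g00 - ((1)*(-I))*g01 - ((-I)*(1))*g10 - ((-I)*(-I))*g11 + (-1 : ℂ)*(s : ℂ)*hI
  · simp [M, P, f1, f2, Fin.sum_univ_four]
    linear_combination (0 : ℂ) * hI - ((1)*(1))*e0 - ((1)*(I))*e1 - ((1)*(1))*g20 - ((1)*(I))*g21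
  · simp [M, P, f1, f2, Fin.sum_univ_four]
    linear_combination (0 : ℂ) * hI - ((1)*(1))*hlC - ((1)*(1))*hlu2C - ((1)*(-1))*e2 - ((1)*(-1))*g22
  · simp [M, P, f1, f2, Fin.sum_univ_four]
    linear_combination (0 : ℂ) * hI - ((1)*(1))*g00 - ((1)*(I))*g01 - ((-I)*(1))*g10 - ((-I)*(I))*g11 + (1 : ℂ)*(s : ℂ)*hI
  · simp [M, P, f1, f2, Fin.sum_univ_four]
    linear_combination (0 : ℂ) * hI - ((1)*(1))*hlu0C - ((-I)*(1))*hlu1C - ((1)*(-1))*g02 - ((-I)*(-1))*g12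
  · simp [M, P, f1, f2, Fin.sum_univ_four]
    linear_combination (0 : ℂ) * hI - ((1)*(1))*hlu0C - ((I)*(1))*hlu1C - ((1)*(1))*g02 - ((I)*(1))*g12
  · simp [M, P, f1, f2, Fin.sum_univ_four]
    linear_combination (0 : ℂ) * hI - ((1)*(1))*g00 - ((1)*(-I))*g01 - ((I)*(1))*g10 - ((I)*(-I))*g11 + (1 : ℂ)*(s : ℂ)*hI
  · simp [M, P, f1, f2, Fin.sum_univ_four]
    linear_combination (0 : ℂ) * hI - ((1)*(1))*hlC - ((-1)*(1))*hlu2C - ((1)*(1))*e2 - ((-1)*(1))*g22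
  · simp [M, P, f1, f2, Fin.sum_univ_four]
    linear_combination (0 : ℂ) * hI - ((1)*(1))*e0 - ((1)*(-I))*e1 - ((-1)*(1))*g20 - ((-1)*(-I))*g21
  · simp [M, P, f1, f2, Fin.sum_univ_four]
    linear_combination (0 : ℂ) * hI - ((1)*(1))*g00 - ((1)*(I))*g01 - ((I)*(1))*g10 - ((I)*(I))*g11 + (-1 : ℂ)*(s : ℂ)*hI
  · simp [M, P, f1, f2, Fin.sum_univ_four]
    linear_combination (0 : ℂ) * hI - ((1)*(1))*hlu0C - ((I)*(1))*hlu1C - ((1)*(-1))*g02 - ((I)*(-1))*g12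
  · simp [M, P, f1, f2, Fin.sum_univ_four]
    linear_combination (0 : ℂ) * hI - ((1)*(1))*e0 - ((1)*(I))*e1 - ((-1)*(1))*g20 - ((-1)*(I))*g21
  · simp [M, P, f1, f2, Fin.sum_univ_four]
    linear_combination (0 : ℂ) * hI - ((1)*(1))*hlC - ((-1)*(1))*hlu2C - ((1)*(-1))*e2 - ((-1)*(-1))*g22

lemma core (u w : Fin 4 → Fin 3 → ℝ) (l : Fin 4 → ℝ) (a b c ρ : ℝ)
    (hu : ∀ i, u i 0 ^ 2 + u i 1 ^ 2 + u i 2 ^ 2 = 1)
    (hw : ∀ i, w i 0 ^ 2 + w i 1 ^ 2 + w i 2 ^ 2 = 1)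
    (hl : ∑ i, l i = 1)
    (hlw : ∀ k, ∑ i, l i * w i k = 0)
    (hlu0 : ∑ i, l i * u i 0 = a) (hlu1 : ∑ i, l i * u i 1 = b) (hlu2 : ∑ i, l i * u i 2 = c)
    (hluw : ∀ k m, ∑ i, l i * (u i k * w i m) = if k = m then -ρ else 0) :
    0 ≤ D (a ^ 2 + b ^ 2 + c ^ 2) ρ * D (a ^ 2 + b ^ 2 + c ^ 2) (-ρ) := by
  obtain ⟨t1, ht1, hd1⟩ := det_factor u w l hu hw (M a b c (-ρ))
    (M_eq u w l a b c (-ρ) hl hlw hlu0 hlu1 hlu2 hluw)
  obtain ⟨t2, ht2, hd2⟩ := det_factor u (fun i k => - w i k) l hu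
    (fun i => by simpa using hw i) (M a b c ρ)
    (M_eq u (fun i k => - w i k) l a b c ρ hl
      (fun k => by simp only [mul_neg, Finset.sum_neg_distrib, hlw k, neg_zero])
      hlu0 hlu1 hlu2
      (fun k m => by
        simp only [mul_neg, Finset.sum_neg_distrib, hluw k m]
        split_ifs <;> simp))
  rw [det_M] at hd1 hd2
  have h1 : D (a ^ 2 + b ^ 2 + c ^ 2) (-ρ) = (∏ i, l i) * t1 := by exact_mod_cast hd1
  have h2 : D (a ^ 2 + b ^ 2 + c ^ 2) ρ = (∏ i, l i) * t2 := by exact_mod_cast hd2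
  rw [h1, h2]
  have : (∏ i, l i) * t2 * ((∏ i, l i) * t1) = (∏ i, l i) ^ 2 * (t1 * t2) := by ring
  rw [this]
  positivity

end Pool.Agent.Lib.MP_f35a22_co
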