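import Mathlib
import Pool.Agent.Lib.MP_f35a22_co.Core

namespace Pool.Agent.Lib.MP_f35a22_co

open Matrix

lemma triple (a b g : Fin 3 → ℝ)
    (ha : a 0 ^ 2 + a 1 ^ 2 + a 2 ^ 2 = 1)
    (hb : b 0 ^ 2 + b 1 ^ 2 + b 2 ^ 2 = 1)
    (hg : g 0 ^ 2 + g 1 ^ 2 + g 2 ^ 2 = 1)
    (h : 9 ≤ (a 0 + b 0 + g 0) ^ 2 + (a 1 + b 1 + g 1) ^ 2 + (a 2 + b 2 + g 2) ^ 2) (k : Fin 3) :
    3 * a k = a k + b k + g k := by
  have key : (a 0 - b 0) ^ 2 + (a 1 - b 1) ^ 2 + (a 2 - b 2) ^ 2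
      + ((b 0 - g 0) ^ 2 + (b 1 - g 1) ^ 2 + (b 2 - g 2) ^ 2)
      + ((a 0 - g 0) ^ 2 + (a 1 - g 1) ^ 2 + (a 2 - g 2) ^ 2) ≤ 0 := by
    linarith
  have s1 := sq_nonneg (a 0 - b 0)
  have s2 := sq_nonneg (a 1 - b 1)
  have s3 := sq_nonneg (a 2 - b 2)
  have s4 := sq_nonneg (b 0 - g 0)
  have s5 := sq_nonneg (b 1 - g 1)
  have s6 := sq_nonneg (b 2 - g 2)
  have s7 := sq_nonneg (a 0 - g 0)
  have s8 := sq_nonneg (a 1 - g 1)
  have s9 := sq_nonneg (a 2 - g 2)
  have h1 : (a k - b k) ^ 2 ≤ 0 := by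
    fin_cases k
    · change (a 0 - b 0) ^ 2 ≤ 0
      linarith
    · change (a 1 - b 1) ^ 2 ≤ 0
      linarith
    · change (a 2 - b 2) ^ 2 ≤ 0
      linarith
  have h2 : (a k - g k) ^ 2 ≤ 0 := by
    fin_cases k
    · change (a 0 - g 0) ^ 2 ≤ 0
      linarith
    · change (a 1 - g 1) ^ 2 ≤ 0
      linarith
    · change (a 2 - g 2) ^ 2 ≤ 0
      linarith
  have h1' : a k - b k = 0 := by
    have := le_antisymm h1 (sq_nonneg _)
    exact pow_eq_zero_iff (two_ne_zero) |>.mp this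
  have h2' : a k - g k = 0 := by
    have := le_antisymm h2 (sq_nonneg _)
    exact pow_eq_zero_iff (two_ne_zero) |>.mp this
  linarith

/-- The five sphere statement in coordinates; the common point of the last four spheres is
the origin. -/
lemma five (c0 : Fin 3 → ℝ) (c p : Fin 4 → Fin 3 → ℝ)
    (h0 : c0 0 ^ 2 + c0 1 ^ 2 + c0 2 ^ 2 ≠ 1)
    (hc : ∀ i, c i 0 ^ 2 + c i 1 ^ 2 + c i 2 ^ 2 = 1)
    (hp0 : ∀ i, (p i 0 - c0 0) ^ 2 + (p i 1 - c0 1) ^ 2 + (p i 2 - c0 2) ^ 2 = 1)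
    (hp : ∀ i j, i ≠ j → (p i 0 - c j 0) ^ 2 + (p i 1 - c j 1) ^ 2 + (p i 2 - c j 2) ^ 2 = 1)
    (hne : ∀ i, (p i 0 - c i 0) ^ 2 + (p i 1 - c i 1) ^ 2 + (p i 2 - c i 2) ^ 2 ≠ 1)
    (hd : c 0 ≠ c 1) : False := by
  -- the squared norm of `c0` is less than 9
  have hlt : c0 0 ^ 2 + c0 1 ^ 2 + c0 2 ^ 2 < 9 := by
    by_contra hcon
    rw [not_lt] at hcon
    apply hd
    have key : ∀ j : Fin 4, j ≠ 3 → ∀ k, 3 * c j k = c0 k := by
      intro j hj k
      have := triple (c j) (fun k => p 3 k - c j k) (fun k => c0 k - p 3 k) (hc j)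
        (hp 3 j hj.symm) (by nlinarith [hp0 3])
        (by
          have e : ∀ k, c j k + (p 3 k - c j k) + (c0 k - p 3 k) = c0 k := fun k => by ring
          simp only [e]
          exact hcon) k
      linarith
    funext k
    have h1 := key 0 (by decide) k
    have h2 := key 1 (by decide) k
    linarith
  set q : Fin 4 → ℝ := fun i => p i 0 ^ 2 + p i 1 ^ 2 + p i 2 ^ 2 with hq
  have hqpos : ∀ i, q i ≠ 0 := by
    intro i hi
    have h1 : p i 0 ^ 2 + p i 1 ^ 2 + p i 2 ^ 2 = 0 := hi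
    have e0 : p i 0 = 0 := by nlinarith [sq_nonneg (p i 0), sq_nonneg (p i 1), sq_nonneg (p i 2)]
    have e1 : p i 1 = 0 := by nlinarith [sq_nonneg (p i 0), sq_nonneg (p i 1), sq_nonneg (p i 2)]
    have e2 : p i 2 = 0 := by nlinarith [sq_nonneg (p i 0), sq_nonneg (p i 1), sq_nonneg (p i 2)]
    apply h0
    have := hp0 i
    rw [e0, e1, e2] at this
    nlinarith
  set y : Fin 4 → Fin 3 → ℝ := fun i k => p i k / q i with hy
  have hpy : ∀ i k, p i k = q i * y i k := by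
    intro i k
    simp only [hy]
    field_simp [hqpos i]
  have hyy : ∀ i, q i * (y i 0 ^ 2 + y i 1 ^ 2 + y i 2 ^ 2) = 1 := by
    intro i
    have h1 : q i = (q i * y i 0) ^ 2 + (q i * y i 1) ^ 2 + (q i * y i 2) ^ 2 := by
      rw [← hpy, ← hpy, ← hpy]
    have h2 : q i * (q i * (y i 0 ^ 2 + y i 1 ^ 2 + y i 2 ^ 2)) = q i * 1 := by
      rw [mul_one]
      nlinarith
    exact mul_left_cancel₀ (hqpos i) h2
  set t : Fin 4 → ℝ := fun i => 1 / 2 - (c i 0 * y i 0 + c i 1 * y i 1 + c i 2 * y i 2) with ht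
  -- off-diagonal relations
  have hoff : ∀ i j, i ≠ j → c j 0 * y i 0 + c j 1 * y i 1 + c j 2 * y i 2 = 1 / 2 := by
    intro i j hij
    have h1 := hp i j hij
    have h2 := hc j
    have h3 : q i = 2 * (c j 0 * p i 0 + c j 1 * p i 1 + c j 2 * p i 2) := by
      simp only [hq]
      nlinarith
    rw [hpy i 0, hpy i 1, hpy i 2] at h3
    have h4 : q i * (c j 0 * y i 0 + c j 1 * y i 1 + c j 2 * y i 2) = q i * (1 / 2) := by
      linarith
    exact mul_left_cancel₀ (hqpos i) h4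
  have htne : ∀ i, t i ≠ 0 := by
    intro i hi
    apply hne i
    have h1 : c i 0 * y i 0 + c i 1 * y i 1 + c i 2 * y i 2 = 1 / 2 := by
      simp only [ht] at hi
      linarith
    have h3 : q i = 2 * (c i 0 * p i 0 + c i 1 * p i 1 + c i 2 * p i 2) := by
      rw [hpy i 0, hpy i 1, hpy i 2]
      linear_combination (-2 * q i) * h1
    simp only [hq] at h3
    nlinarith [hc i]
  have hcirc : ∀ i, 1 - 2 * (c0 0 * y i 0 + c0 1 * y i 1 + c0 2 * y i 2)
      + (c0 0 ^ 2 + c0 1 ^ 2 + c0 2 ^ 2 - 1) * (y i 0 ^ 2 + y i 1 ^ 2 + y i 2 ^ 2) = 0 := by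
    intro i
    have h1 := hp0 i
    have h2 : q i - 2 * (c0 0 * p i 0 + c0 1 * p i 1 + c0 2 * p i 2)
      + (c0 0 ^ 2 + c0 1 ^ 2 + c0 2 ^ 2 - 1) = 0 := by
      simp only [hq]
      nlinarith
    rw [hpy i 0, hpy i 1, hpy i 2] at h2
    have h3 : q i * (1 - 2 * (c0 0 * y i 0 + c0 1 * y i 1 + c0 2 * y i 2)
      + (c0 0 ^ 2 + c0 1 ^ 2 + c0 2 ^ 2 - 1) * (y i 0 ^ 2 + y i 1 ^ 2 + y i 2 ^ 2)) = q i * 0 := by
      linear_combination h2 + (c0 0 ^ 2 + c0 1 ^ 2 + c0 2 ^ 2 - 1) * hyy i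
    exact mul_left_cancel₀ (hqpos i) h3
  -- the barycentric relations
  let A : Matrix (Fin 4) (Fin 4) ℝ := fun i => ![1, y i 0, y i 1, y i 2]
  let B : Matrix (Fin 4) (Fin 4) ℝ := fun r j => ![1 / 2, - c j 0, - c j 1, - c j 2] r / t j
  have hAB : A * B = 1 := by
    ext i j
    rw [Matrix.mul_apply, Fin.sum_univ_four]
    by_cases hij : i = j
    · subst hij
      rw [Matrix.one_apply_eq]
      simp [A, B]
      field_simp [htne i]
      simp only [ht]
      ring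
    · rw [Matrix.one_apply_ne hij]
      have := hoff i j hij
      have e : A i 0 * B 0 j + A i 1 * B 1 j + A i 2 * B 2 j + A i 3 * B 3 j
        = (1 / 2 - (c j 0 * y i 0 + c j 1 * y i 1 + c j 2 * y i 2)) / t j := by
        simp [A, B]
        ring
      rw [e, this]
      simp
  have hBA : B * A = 1 := mul_eq_one_comm.mp hAB
  have hent : ∀ r s, ∑ i, B r i * A i s = (1 : Matrix (Fin 4) (Fin 4) ℝ) r s := by
    intro r s
    rw [← hBA, Matrix.mul_apply]
  set l : Fin 4 → ℝ := fun i => 1 / (2 * t i) with hl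
  set κ : ℝ := c0 0 ^ 2 + c0 1 ^ 2 + c0 2 ^ 2 - 1 with hκ
  have hlsum : ∑ i, l i = 1 := by
    have := hent 0 0
    simp only [A, B, Matrix.one_apply_eq] at this
    rw [← this]
    refine Finset.sum_congr rfl fun i _ => ?_
    simp only [hl, Matrix.cons_val_zero]
    field_simp [htne i]
  have hlc : ∀ k, ∑ i, l i * c i k = 0 := by
    intro k
    have h1 := hent (Fin.succ k) 0
    rw [Matrix.one_apply_ne (Fin.succ_ne_zero k)] at h1
    have h2 : ∑ i, l i * c i k = (-1 / 2) * ∑ i, B (Fin.succ k) i * A i 0 := by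
      rw [Finset.mul_sum]
      refine Finset.sum_congr rfl fun i _ => ?_
      fin_cases k <;> simp [A, B, hl] <;> field_simp [htne i]
    rw [h2, h1, mul_zero]
  have hly : ∀ k, ∑ i, l i * y i k = 0 := by
    intro k
    have h1 := hent 0 (Fin.succ k)
    rw [Matrix.one_apply_ne (Fin.succ_ne_zero k).symm] at h1
    have h2 : ∑ i, l i * y i k = ∑ i, B 0 i * A i (Fin.succ k) := by
      refine Finset.sum_congr rfl fun i _ => ?_
      fin_cases k <;> simp [A, B, hl] <;> left <;> field_simp [htne i]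
    rw [h2, h1]
  have hlyc : ∀ k m, ∑ i, l i * (y i k * c i m) = if k = m then -(1 / 2) else 0 := by
    intro k m
    have h1 := hent (Fin.succ m) (Fin.succ k)
    have h2 : ∑ i, l i * (y i k * c i m) = (-1 / 2) * ∑ i, B (Fin.succ m) i * A i (Fin.succ k) := by
      rw [Finset.mul_sum]
      refine Finset.sum_congr rfl fun i _ => ?_
      fin_cases k <;> fin_cases m <;> simp [A, B, hl] <;> field_simp [htne i]
    rw [h2, h1]
    by_cases hkm : k = m
    · subst hkm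
      simp
      norm_num
    · rw [if_neg hkm, Matrix.one_apply_ne (fun h => hkm (Fin.succ_injective _ h).symm), mul_zero]
  have hcore := core (fun i k => κ * y i k - c0 k) c l (- c0 0) (- c0 1) (- c0 2) (κ / 2)
    (by
      intro i
      have h1 := hcirc i
      have : (κ * y i 0 - c0 0) ^ 2 + (κ * y i 1 - c0 1) ^ 2 + (κ * y i 2 - c0 2) ^ 2
        = κ * (1 - 2 * (c0 0 * y i 0 + c0 1 * y i 1 + c0 2 * y i 2)
            + κ * (y i 0 ^ 2 + y i 1 ^ 2 + y i 2 ^ 2)) - κ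
            + (c0 0 ^ 2 + c0 1 ^ 2 + c0 2 ^ 2) := by ring
      rw [this, h1]
      rw [hκ]
      ring)
    hc hlsum hlc
    (by
      have e : ∀ i, l i * (κ * y i 0 - c0 0) = κ * (l i * y i 0) - c0 0 * l i := fun i => by ring
      simp only [e, Finset.sum_sub_distrib, ← Finset.mul_sum, hly, hlsum]
      ring)
    (by
      have e : ∀ i, l i * (κ * y i 1 - c0 1) = κ * (l i * y i 1) - c0 1 * l i := fun i => by ring
      simp only [e, Finset.sum_sub_distrib, ← Finset.mul_sum, hly, hlsum]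
      ring)
    (by
      have e : ∀ i, l i * (κ * y i 2 - c0 2) = κ * (l i * y i 2) - c0 2 * l i := fun i => by ring
      simp only [e, Finset.sum_sub_distrib, ← Finset.mul_sum, hly, hlsum]
      ring)
    (by
      intro k m
      have e : ∀ i, l i * ((κ * y i k - c0 k) * c i m)
        = κ * (l i * (y i k * c i m)) - c0 k * (l i * c i m) := fun i => by ring
      simp only [e, Finset.sum_sub_distrib, ← Finset.mul_sum, hlyc, hlc]
      split_ifs <;> ring)
  have hn : (- c0 0) ^ 2 + (- c0 1) ^ 2 + (- c0 2) ^ 2 = 1 + κ := by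
    rw [hκ]
    ring
  rw [hn] at hcore
  have hκne : κ ≠ 0 := by
    intro h
    apply h0
    rw [hκ] at h
    linarith
  have hκlo : -1 ≤ κ := by
    rw [hκ]
    nlinarith [sq_nonneg (c0 0), sq_nonneg (c0 1), sq_nonneg (c0 2)]
  have hκhi : κ < 8 := by
    rw [hκ]
    linarith
  have hval : D (1 + κ) (κ / 2) * D (1 + κ) (-(κ / 2))
      = -(3 * (κ / 2) ^ 6 * ((4 + 3 * (κ / 2)) * (4 - κ / 2))) := by
    unfold D
    ring
  rw [hval] at hcore
  have hpos : 0 < 3 * (κ / 2) ^ 6 * ((4 + 3 * (κ / 2)) * (4 - κ / 2)) := by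
    have h1 : 0 < (κ / 2) ^ 6 := by
      have : κ / 2 ≠ 0 := by
        intro h
        apply hκne
        linarith
      positivity
    have h2 : 0 < 4 + 3 * (κ / 2) := by linarith
    have h3 : 0 < 4 - κ / 2 := by linarith
    positivity
  linarith

end Pool.Agent.Lib.MP_f35a22_co
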