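import Mathlib

namespace Pool.Agent.Lib.MP_f35a22_co

/-- Three distinct unit spheres have at most two common points (coordinate form: the
first centre is the origin). -/
lemma three (a b X Y Z : Fin 3 → ℝ)
    (ha : a ≠ 0) (hb : b ≠ 0) (hab : a ≠ b) (hXY : X ≠ Y) (hXZ : X ≠ Z) (hYZ : Y ≠ Z)
    (hX : X 0 ^ 2 + X 1 ^ 2 + X 2 ^ 2 = 1)
    (hY : Y 0 ^ 2 + Y 1 ^ 2 + Y 2 ^ 2 = 1)
    (hZ : Z 0 ^ 2 + Z 1 ^ 2 + Z 2 ^ 2 = 1)
    (haX : (X 0 - a 0) ^ 2 + (X 1 - a 1) ^ 2 + (X 2 - a 2) ^ 2 = 1)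
    (haY : (Y 0 - a 0) ^ 2 + (Y 1 - a 1) ^ 2 + (Y 2 - a 2) ^ 2 = 1)
    (haZ : (Z 0 - a 0) ^ 2 + (Z 1 - a 1) ^ 2 + (Z 2 - a 2) ^ 2 = 1)
    (hbX : (X 0 - b 0) ^ 2 + (X 1 - b 1) ^ 2 + (X 2 - b 2) ^ 2 = 1)
    (hbY : (Y 0 - b 0) ^ 2 + (Y 1 - b 1) ^ 2 + (Y 2 - b 2) ^ 2 = 1)
    (hbZ : (Z 0 - b 0) ^ 2 + (Z 1 - b 1) ^ 2 + (Z 2 - b 2) ^ 2 = 1) : False := by
  have zero_of : ∀ v : Fin 3 → ℝ, v 0 ^ 2 + v 1 ^ 2 + v 2 ^ 2 = 0 → v = 0 := by
    intro v hv
    have s0 := sq_nonneg (v 0)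
    have s1 := sq_nonneg (v 1)
    have s2 := sq_nonneg (v 2)
    have e0 : v 0 ^ 2 = 0 := by linarith
    have e1 : v 1 ^ 2 = 0 := by linarith
    have e2 : v 2 ^ 2 = 0 := by linarith
    funext k
    fin_cases k
    · exact pow_eq_zero_iff two_ne_zero |>.mp e0
    · exact pow_eq_zero_iff two_ne_zero |>.mp e1
    · exact pow_eq_zero_iff two_ne_zero |>.mp e2
  have A : a 0 ^ 2 + a 1 ^ 2 + a 2 ^ 2 ≠ 0 := fun h => ha (zero_of a h)
  have Bn : b 0 ^ 2 + b 1 ^ 2 + b 2 ^ 2 ≠ 0 := fun h => hb (zero_of b h)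
  -- dot products
  have aX : a 0 * X 0 + a 1 * X 1 + a 2 * X 2 = (a 0 ^ 2 + a 1 ^ 2 + a 2 ^ 2) / 2 := by linarith
  have aY : a 0 * Y 0 + a 1 * Y 1 + a 2 * Y 2 = (a 0 ^ 2 + a 1 ^ 2 + a 2 ^ 2) / 2 := by linarith
  have aZ : a 0 * Z 0 + a 1 * Z 1 + a 2 * Z 2 = (a 0 ^ 2 + a 1 ^ 2 + a 2 ^ 2) / 2 := by linarith
  have bX : b 0 * X 0 + b 1 * X 1 + b 2 * X 2 = (b 0 ^ 2 + b 1 ^ 2 + b 2 ^ 2) / 2 := by linarith
  have bY : b 0 * Y 0 + b 1 * Y 1 + b 2 * Y 2 = (b 0 ^ 2 + b 1 ^ 2 + b 2 ^ 2) / 2 := by linarith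
  have bZ : b 0 * Z 0 + b 1 * Z 1 + b 2 * Z 2 = (b 0 ^ 2 + b 1 ^ 2 + b 2 ^ 2) / 2 := by linarith
  set n0 : ℝ := a 1 * b 2 - a 2 * b 1 with hn0
  set n1 : ℝ := a 2 * b 0 - a 0 * b 2 with hn1
  set n2 : ℝ := a 0 * b 1 - a 1 * b 0 with hn2
  by_cases hn : n0 ^ 2 + n1 ^ 2 + n2 ^ 2 = 0
  · have s0 := sq_nonneg n0
    have s1 := sq_nonneg n1
    have s2 := sq_nonneg n2
    have e0 : n0 = 0 := pow_eq_zero_iff two_ne_zero |>.mp (by linarith)
    have e1 : n1 = 0 := pow_eq_zero_iff two_ne_zero |>.mp (by linarith)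
    have e2 : n2 = 0 := pow_eq_zero_iff two_ne_zero |>.mp (by linarith)
    set AB : ℝ := a 0 * b 0 + a 1 * b 1 + a 2 * b 2 with hAB
    set AA : ℝ := a 0 ^ 2 + a 1 ^ 2 + a 2 ^ 2 with hAA
    set BB : ℝ := b 0 ^ 2 + b 1 ^ 2 + b 2 ^ 2 with hBB
    have lag : AA * BB = AB ^ 2 := by
      have : AA * BB - AB ^ 2 = n0 ^ 2 + n1 ^ 2 + n2 ^ 2 := by
        rw [hAA, hBB, hAB, hn0, hn1, hn2]
        ring
      linarith
    -- AA * (b . X) = AB * (a . X)
    have h1 : AA * (b 0 * X 0 + b 1 * X 1 + b 2 * X 2) = AB * (a 0 * X 0 + a 1 * X 1 + a 2 * X 2) := by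
      have : AA * (b 0 * X 0 + b 1 * X 1 + b 2 * X 2) - AB * (a 0 * X 0 + a 1 * X 1 + a 2 * X 2)
        = n0 * (a 1 * X 2 - a 2 * X 1) + n1 * (a 2 * X 0 - a 0 * X 2)
          + n2 * (a 0 * X 1 - a 1 * X 0) := by
        rw [hAA, hAB, hn0, hn1, hn2]
        ring
      rw [e0, e1, e2] at this
      linarith
    rw [aX, bX] at h1
    have h2 : BB = AB := by
      have : AA * (BB - AB) = 0 := by linarith
      rcases mul_eq_zero.mp this with h | h
      · exact absurd h A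
      · linarith
    have h3 : AA = BB := by
      have : BB * (AA - BB) = 0 := by
        rw [← h2] at lag
        linarith
      rcases mul_eq_zero.mp this with h | h
      · exact absurd h Bn
      · linarith
    apply hab
    have h4 := zero_of (fun k => a k - b k) (by
      have : (a 0 - b 0) ^ 2 + (a 1 - b 1) ^ 2 + (a 2 - b 2) ^ 2 = AA - 2 * AB + BB := by
        rw [hAA, hBB, hAB]
        ring
      rw [this]
      linarith)
    funext k
    have := congrFun h4 k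
    simp at this
    linarith
  · set N : ℝ := n0 ^ 2 + n1 ^ 2 + n2 ^ 2 with hN
    -- vectors orthogonal to a and b are multiples of n
    have key : ∀ v : Fin 3 → ℝ, a 0 * v 0 + a 1 * v 1 + a 2 * v 2 = 0 →
        b 0 * v 0 + b 1 * v 1 + b 2 * v 2 = 0 →
        N * v 0 = (n0 * v 0 + n1 * v 1 + n2 * v 2) * n0 ∧
        N * v 1 = (n0 * v 0 + n1 * v 1 + n2 * v 2) * n1 ∧
        N * v 2 = (n0 * v 0 + n1 * v 1 + n2 * v 2) * n2 := by
      intro v h1 h2
      -- v × n = a (v.b) - b (v.a) = 0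
      have w0 : v 1 * n2 - v 2 * n1 = 0 := by
        rw [hn1, hn2]
        linear_combination a 0 * h2 - b 0 * h1
      have w1 : v 2 * n0 - v 0 * n2 = 0 := by
        rw [hn0, hn2]
        linear_combination a 1 * h2 - b 1 * h1
      have w2 : v 0 * n1 - v 1 * n0 = 0 := by
        rw [hn0, hn1]
        linear_combination a 2 * h2 - b 2 * h1
      refine ⟨?_, ?_, ?_⟩
      · rw [hN]
        linear_combination n1 * w2 - n2 * w1
      · rw [hN]
        linear_combination n2 * w0 - n0 * w2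
      · rw [hN]
        linear_combination n0 * w1 - n1 * w0
    -- any point on the line has a prescribed coordinate along n
    have key2 : ∀ V : Fin 3 → ℝ, V ≠ X → V 0 ^ 2 + V 1 ^ 2 + V 2 ^ 2 = 1 →
        a 0 * V 0 + a 1 * V 1 + a 2 * V 2 = (a 0 ^ 2 + a 1 ^ 2 + a 2 ^ 2) / 2 →
        b 0 * V 0 + b 1 * V 1 + b 2 * V 2 = (b 0 ^ 2 + b 1 ^ 2 + b 2 ^ 2) / 2 →
        (∀ k, N * (V k - X k) = -2 * (n0 * X 0 + n1 * X 1 + n2 * X 2) * ![n0, n1, n2] k) := by
      intro V hVX hV haV hbV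
      obtain ⟨k0, k1, k2⟩ := key (fun k => V k - X k) (by linarith) (by linarith)
      set τ : ℝ := n0 * (V 0 - X 0) + n1 * (V 1 - X 1) + n2 * (V 2 - X 2) with hτ
      have hτ0 : τ ≠ 0 := by
        intro h
        rw [h] at k0 k1 k2
        apply hVX
        funext k
        fin_cases k
        · have : N * (V 0 - X 0) = 0 := by linarith
          rcases mul_eq_zero.mp this with h | h
          · exact absurd h hn
          · change V 0 = X 0
            linarith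
        · have : N * (V 1 - X 1) = 0 := by linarith
          rcases mul_eq_zero.mp this with h | h
          · exact absurd h hn
          · change V 1 = X 1
            linarith
        · have : N * (V 2 - X 2) = 0 := by linarith
          rcases mul_eq_zero.mp this with h | h
          · exact absurd h hn
          · change V 2 = X 2
            linarith
      -- |V|^2 = |X|^2
      have hsq : (V 0 - X 0) ^ 2 + (V 1 - X 1) ^ 2 + (V 2 - X 2) ^ 2
          + 2 * (X 0 * (V 0 - X 0) + X 1 * (V 1 - X 1) + X 2 * (V 2 - X 2)) = 0 := by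
        linarith
      have hsq2 : N ^ 2 * ((V 0 - X 0) ^ 2 + (V 1 - X 1) ^ 2 + (V 2 - X 2) ^ 2
          + 2 * (X 0 * (V 0 - X 0) + X 1 * (V 1 - X 1) + X 2 * (V 2 - X 2)))
          = τ ^ 2 * N + 2 * N * τ * (n0 * X 0 + n1 * X 1 + n2 * X 2) := by
        have e : N ^ 2 * ((V 0 - X 0) ^ 2 + (V 1 - X 1) ^ 2 + (V 2 - X 2) ^ 2
          + 2 * (X 0 * (V 0 - X 0) + X 1 * (V 1 - X 1) + X 2 * (V 2 - X 2)))
          = (N * (V 0 - X 0)) ^ 2 + (N * (V 1 - X 1)) ^ 2 + (N * (V 2 - X 2)) ^ 2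
          + 2 * N * (X 0 * (N * (V 0 - X 0)) + X 1 * (N * (V 1 - X 1)) + X 2 * (N * (V 2 - X 2))) := by
          ring
        rw [e, k0, k1, k2, hN]
        ring
      rw [hsq, mul_zero] at hsq2
      have hτ2 : τ = -2 * (n0 * X 0 + n1 * X 1 + n2 * X 2) := by
        have : (N * τ) * (τ + 2 * (n0 * X 0 + n1 * X 1 + n2 * X 2)) = 0 := by linarith
        rcases mul_eq_zero.mp this with h | h
        · exact absurd h (mul_ne_zero hn hτ0)
        · linarith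
      rw [hτ2] at k0 k1 k2
      intro k
      fin_cases k
      · exact k0
      · exact k1
      · exact k2
    have hy := key2 Y hXY.symm hY aY bY
    have hz := key2 Z hXZ.symm hZ aZ bZ
    apply hYZ
    funext k
    have h1 := hy k
    have h2 := hz k
    have : N * (Y k - Z k) = 0 := by linarith
    rcases mul_eq_zero.mp this with h | h
    · exact absurd h hn
    · linarith

end Pool.Agent.Lib.MP_f35a22_co
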