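import Mathlib
import Pool.Agent.Lib.MP_f35a22_co.Five
import Pool.Agent.Lib.MP_f35a22_co.Three

set_option autoImplicit false

/-!
# Helly-type theorem for unit spheres of three-dimensional space (set version)

The proof of the frozen statement S12391, as a library file independent of `Pool.Statements`.
-/

namespace Pool.Agent.Lib.MP_f35a22_co.Helly

open Pool.Agent.Lib.MP_f35a22_co

abbrev E := EuclideanSpace ℝ (Fin 3)

lemma dist_one_iff (x y : E) :
    dist x y = 1 ↔ (x 0 - y 0) ^ 2 + (x 1 - y 1) ^ 2 + (x 2 - y 2) ^ 2 = 1 := by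
  rw [EuclideanSpace.dist_eq, Fin.sum_univ_three]
  rw [Real.sqrt_eq_one]
  simp only [Real.dist_eq, sq_abs]

lemma dist_zero_iff (x y : E) :
    x = y ↔ (x 0 - y 0) ^ 2 + (x 1 - y 1) ^ 2 + (x 2 - y 2) ^ 2 = 0 := by
  rw [← dist_eq_zero, EuclideanSpace.dist_eq, Fin.sum_univ_three]
  rw [Real.sqrt_eq_zero (by positivity)]
  simp only [Real.dist_eq, sq_abs]

/-- Five distinct unit spheres, each four of which have a common point, have a common point. -/
lemma fiveE (c0 p0 : E) (c p : Fin 4 → E)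
    (h0 : dist p0 c0 ≠ 1) (hc : ∀ i, dist p0 (c i) = 1)
    (hp0 : ∀ i, dist (p i) c0 = 1)
    (hp : ∀ i j, i ≠ j → dist (p i) (c j) = 1)
    (hne : ∀ i, dist (p i) (c i) ≠ 1)
    (hd : c 0 ≠ c 1) : False := by
  refine five (fun k => c0 k - p0 k) (fun i k => c i k - p0 k) (fun i k => p i k - p0 k)
    ?_ ?_ ?_ ?_ ?_ ?_
  · intro h
    apply h0
    rw [dist_one_iff]
    linarith
  · intro i
    have := (dist_one_iff _ _).mp (hc i)
    linarith
  · intro i
    have := (dist_one_iff _ _).mp (hp0 i)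
    simpa using this
  · intro i j hij
    have := (dist_one_iff _ _).mp (hp i j hij)
    simpa using this
  · intro i h
    apply hne i
    rw [dist_one_iff]
    simpa using h
  · intro h
    apply hd
    ext k
    have := congrFun h k
    simp only at this
    linarith

/-- Three distinct unit spheres have at most two common points. -/
lemma threeE (c1 c2 c3 x y z : E) (h12 : c1 ≠ c2) (h13 : c1 ≠ c3) (h23 : c2 ≠ c3)
    (hxy : x ≠ y) (hxz : x ≠ z) (hyz : y ≠ z)
    (hx1 : dist x c1 = 1) (hx2 : dist x c2 = 1) (hx3 : dist x c3 = 1)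
    (hy1 : dist y c1 = 1) (hy2 : dist y c2 = 1) (hy3 : dist y c3 = 1)
    (hz1 : dist z c1 = 1) (hz2 : dist z c2 = 1) (hz3 : dist z c3 = 1) : False := by
  rw [dist_one_iff] at *
  have ne_of : ∀ u v : E, u ≠ v → (fun k => u k - c1 k : Fin 3 → ℝ) ≠ (fun k => v k - c1 k) := by
    intro u v huv h
    apply huv
    ext k
    have := congrFun h k
    simp only at this
    linarith
  have ne_zero : ∀ u : E, c1 ≠ u → (fun k => u k - c1 k : Fin 3 → ℝ) ≠ 0 := by
    intro u huv h
    apply huv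
    ext k
    have := congrFun h k
    simp at this
    linarith
  refine three (fun k => c2 k - c1 k) (fun k => c3 k - c1 k) (fun k => x k - c1 k)
    (fun k => y k - c1 k) (fun k => z k - c1 k) (ne_zero _ h12) (ne_zero _ h13) (ne_of _ _ h23)
    (ne_of _ _ hxy) (ne_of _ _ hxz) (ne_of _ _ hyz) hx1 hy1 hz1 ?_ ?_ ?_ ?_ ?_ ?_ <;>
    (ring_nf; ring_nf at *; assumption)

/-- For any set of at least 5 distinct centers in 3-space, if every 4 of the unit spheres around them share a common point, then one point lies on all of these unit spheres. -/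
theorem helly :
    ∀ S : Set (EuclideanSpace ℝ (Fin 3)),
      5 ≤ S.encard →
      (∀ T : Set (EuclideanSpace ℝ (Fin 3)), T ⊆ S → T.encard = 4 →
        ∃ p : EuclideanSpace ℝ (Fin 3), ∀ c ∈ T, p ∈ Metric.sphere c 1) →
      ∃ p : EuclideanSpace ℝ (Fin 3), ∀ c ∈ S, p ∈ Metric.sphere c 1 := by
  intro S hS hT
  by_contra hcon
  have hcon' : ∀ p : E, ∃ c ∈ S, dist p c ≠ 1 := by
    intro p
    by_contra h
    apply hcon
    refine ⟨p, fun c hc => ?_⟩
    rw [Metric.mem_sphere]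
    by_contra h'
    exact h ⟨c, hc, h'⟩
  have h4 : ∀ a b c d : E, a ∈ S → b ∈ S → c ∈ S → d ∈ S → a ≠ b → a ≠ c → a ≠ d → b ≠ c →
      b ≠ d → c ≠ d → ∃ p : E, dist p a = 1 ∧ dist p b = 1 ∧ dist p c = 1 ∧ dist p d = 1 := by
    intro a b c d ha hb hc hd hab hac had hbc hbd hcd
    obtain ⟨p, hp⟩ := hT {a, b, c, d} (by
        intro v hv
        simp only [Set.mem_insert_iff, Set.mem_singleton_iff] at hv
        rcases hv with rfl | rfl | rfl | rfl <;> assumption)
      (by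
        rw [Set.encard_insert_of_notMem (by simp [hab, hac, had]),
          Set.encard_insert_of_notMem (by simp [hbc, hbd]), Set.encard_pair hcd]
        norm_num)
    refine ⟨p, ?_, ?_, ?_, ?_⟩
    · exact Metric.mem_sphere.mp (hp a (by simp))
    · exact Metric.mem_sphere.mp (hp b (by simp))
    · exact Metric.mem_sphere.mp (hp c (by simp))
    · exact Metric.mem_sphere.mp (hp d (by simp))
  -- a first subset with 4 elements
  obtain ⟨T0, hT0S, hT0⟩ := Set.exists_subset_encard_eq (s := S) (k := 4)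
    (le_trans (by norm_num) hS)
  obtain ⟨x, hx⟩ := hT T0 hT0S hT0
  have hx' : ∀ c ∈ T0, dist x c = 1 := fun c hc => Metric.mem_sphere.mp (hx c hc)
  obtain ⟨T3, hT3, hT3c⟩ := Set.exists_subset_encard_eq (s := T0) (k := 3)
    (by rw [hT0]; norm_num)
  obtain ⟨c1, c2, c3, h12, h13, h23, rfl⟩ := Set.encard_eq_three.mp hT3c
  have m1 : c1 ∈ T0 := hT3 (by simp)
  have m2 : c2 ∈ T0 := hT3 (by simp)
  have m3 : c3 ∈ T0 := hT3 (by simp)
  have s1 : c1 ∈ S := hT0S m1
  have s2 : c2 ∈ S := hT0S m2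
  have s3 : c3 ∈ S := hT0S m3
  obtain ⟨c4, s4, hx4⟩ := hcon' x
  have h14 : c1 ≠ c4 := fun h => hx4 (h ▸ hx' c1 m1)
  have h24 : c2 ≠ c4 := fun h => hx4 (h ▸ hx' c2 m2)
  have h34 : c3 ≠ c4 := fun h => hx4 (h ▸ hx' c3 m3)
  obtain ⟨y, hy1, hy2, hy3, hy4⟩ := h4 c1 c2 c3 c4 s1 s2 s3 s4 h12 h13 h14 h23 h24 h34
  obtain ⟨c5, s5, hy5⟩ := hcon' y
  have h15 : c1 ≠ c5 := fun h => hy5 (h ▸ hy1)
  have h25 : c2 ≠ c5 := fun h => hy5 (h ▸ hy2)
  have h35 : c3 ≠ c5 := fun h => hy5 (h ▸ hy3)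
  have h45 : c4 ≠ c5 := fun h => hy5 (h ▸ hy4)
  obtain ⟨p1, a12, a13, a14, a15⟩ := h4 c2 c3 c4 c5 s2 s3 s4 s5 h23 h24 h25 h34 h35 h45
  obtain ⟨p2, a21, a23, a24, a25⟩ := h4 c1 c3 c4 c5 s1 s3 s4 s5 h13 h14 h15 h34 h35 h45
  obtain ⟨p3, a31, a32, a34, a35⟩ := h4 c1 c2 c4 c5 s1 s2 s4 s5 h12 h14 h15 h24 h25 h45
  obtain ⟨p4, a41, a42, a43, a45⟩ := h4 c1 c2 c3 c5 s1 s2 s3 s5 h12 h13 h15 h23 h25 h35
  -- a point common to the five spheres
  have hz : ∃ z : E, dist z c1 = 1 ∧ dist z c2 = 1 ∧ dist z c3 = 1 ∧ dist z c4 = 1 ∧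
      dist z c5 = 1 := by
    by_contra hno
    have n1 : dist p1 c1 ≠ 1 := fun h => hno ⟨p1, h, a12, a13, a14, a15⟩
    have n2 : dist p2 c2 ≠ 1 := fun h => hno ⟨p2, a21, h, a23, a24, a25⟩
    have n3 : dist p3 c3 ≠ 1 := fun h => hno ⟨p3, a31, a32, h, a34, a35⟩
    have n4 : dist p4 c4 ≠ 1 := fun h => hno ⟨p4, a41, a42, a43, h, a45⟩
    refine fiveE c5 y ![c1, c2, c3, c4] ![p1, p2, p3, p4] hy5 ?_ ?_ ?_ ?_ h12
    · intro i
      fin_cases i
      · exact hy1
      · exact hy2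
      · exact hy3
      · exact hy4
    · intro i
      fin_cases i
      · exact a15
      · exact a25
      · exact a35
      · exact a45
    · intro i j hij
      fin_cases i <;> fin_cases j
      · exact absurd rfl hij
      · exact a12
      · exact a13
      · exact a14
      · exact a21
      · exact absurd rfl hij
      · exact a23
      · exact a24
      · exact a31
      · exact a32
      · exact absurd rfl hij
      · exact a34
      · exact a41
      · exact a42
      · exact a43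
      · exact absurd rfl hij
    · intro i
      fin_cases i
      · exact n1
      · exact n2
      · exact n3
      · exact n4
  obtain ⟨z, z1, z2, z3, z4, z5⟩ := hz
  have hxy : x ≠ y := fun h => hx4 (h ▸ hy4)
  have hxz : x ≠ z := fun h => hx4 (h ▸ z4)
  have hyz : y ≠ z := fun h => hy5 (h ▸ z5)
  exact threeE c1 c2 c3 x y z h12 h13 h23 hxy hxz hyz (hx' c1 m1) (hx' c2 m2) (hx' c3 m3)
    hy1 hy2 hy3 z1 z2 z3

end Pool.Agent.Lib.MP_f35a22_co.Helly
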